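import Pool.Agent.T9h27.R.Top

/-!
# The zeros of the L-functions of two different characters

The problem asks (part (i)) whether the zeros on the critical line of the L-functions of the
irreducible characters of `Gal(F/ℚ)` are linearly independent over `ℚ`; in particular the
L-functions of different characters should have no zero in common, and all the zeros should be
simple.  We prove this for a positive proportion of the zeros, unconditionally, for the pairs of
L-functions of abelian fields which are obtained from one given pair by twisting.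

Let `ψ₁` modulo `m₁` and `ψ₂` modulo `m₂` be any two different primitive Dirichlet characters (one
of them may be trivial, `m = 1`).  For the primitive Dirichlet characters `χ` modulo `q`, `q` prime to
`m₁ m₂`, the characters `χ ψ₁` and `χ ψ₂` are primitive modulo `q m₁` and `q m₂`.  Both are
irreducible characters of the Galois group of the field `F` of the `(q m₁ m₂)`-th roots of unity.

For all large `X`, for all the primitive characters `χ` of all the conductors `q` prime to `m₁ m₂` with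
`X < q ≤ Y`, `Y ≥ κ X`, with the weight `q^(-2)`, at *every* height `|t| ≤ X^η` (also at the real
axis) and for *every* length `B / log X ≤ H ≤ X^η`, we consider the zeros of `L(s, χψ₁)` and of
`L(s, χψ₂)` with `t < Im s ≤ t + H`, counted with multiplicity.

* For each of the two functions their number is `(H / 2π) log q` up to an error `ε (H / 2π) log q` on
  average over the family, in absolute value.
* Of the zeros of the two functions together at least 35.79 per cent are simple zeros on the critical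
  line of one of the two functions which are not zeros of the other one.  The number of different
  complex numbers among them is at least 67.895 per cent of the number of the zeros.
* Of the zeros of `L(s, χψ₁)` alone at least 30.2 per cent are simple, on the critical line and not
  zeros of `L(s, χψ₂)`, and at least 35.78 per cent are different complex numbers which are not zeros of
  `L(s, χψ₂)`; and the same with `ψ₁`, `ψ₂` exchanged.

Since the mean distance of the ordinates of the zeros is about `2 π / log X` for each of the two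
functions for `Y = κ X`, the windows may be as short as a constant multiple of the mean distance.  It
follows that for at least 30.2 per cent of the `χ` the function `L(s, χψ₁)` has a simple zero on the
critical line with `t < Im s ≤ t + B / log X` which is not a zero of `L(s, χψ₂)`; the same with `ψ₁`, `ψ₂`
exchanged; and for at least 35.79 per cent of the `χ` one of the two is the case.

In the starting modules: for `ψ₁ = 1` and the zeros with `T < Im s ≤ 2T`, `T ≥ 4 (log X)²`,
`Y ≤ X^(1+η)`, the two proportions for the two functions together are in `TwistsPolynomialHeights`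
(problem MP_0f5a55_nt; `CommonZerosTwist` for `ψ₂ = χ₄`).

Proof.  The kernel of Montgomery and Taylor, applied to the zeros in the window of the product
`L(s, χψ₁) L(s, χψ₂)`, an L-function of degree two; a common zero has multiplicity at least two in
the product.  By the orthogonality of the characters `ψ₁` and `ψ₂` (Dirichlet's theorem,
`L(1, ψ₁ ψ₂⁻¹) ≠ 0`) the mean square of `(ψ₁(p) + ψ₂(p)) log p` is twice that of `log p`.  The mean
square of the prime sums comes from the large sieve inequality with the sharp constant for all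
primitive characters with conductor in a long interval.  The zeros far from the line, which are not
controlled by positivity, are few by the density theorem for the products (Selberg's mollifier on
the free monoid with two generators over every prime, the large sieve over all `q`), and the
members of the family for which they are many are discarded.  The inequality for the product also
counts the zeros off the line; together with the inequality for one of the functions (prime sums of
length `X^(2-ε)`, 88.83 per cent) this gives the statements on one of the two functions.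
-/

set_option autoImplicit false

namespace Pool.Agent.Results.MP_3b6604_nt.TwistPairsOwnZeros

/-- The product of the Dirichlet characters `χ` modulo `q` and `ψ` modulo `m`, a Dirichlet character
modulo `q * m`. -/
noncomputable def twist {q m : ℕ} (χ : DirichletCharacter ℂ q) (ψ : DirichletCharacter ℂ m) :
    DirichletCharacter ℂ (q * m) :=
  DirichletCharacter.changeLevel (Nat.dvd_mul_right q m) χ *
    DirichletCharacter.changeLevel (Nat.dvd_mul_left m q) ψ

open Classical in
/-- `L(s, ω)`, the L-function of the Dirichlet character `ω` modulo `n ≥ 1`. -/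
noncomputable def L {n : ℕ} (ω : DirichletCharacter ℂ n) : ℂ → ℂ :=
  if h : n = 0 then 0 else
    haveI : NeZero n := ⟨h⟩
    DirichletCharacter.LFunction ω

/-- The zeros of `F` in the open critical strip with `T₁ < Im s ≤ T₂`. -/
def zeros (F : ℂ → ℂ) (T₁ T₂ : ℝ) : Set ℂ :=
  {s : ℂ | 0 < s.re ∧ s.re < 1 ∧ T₁ < s.im ∧ s.im ≤ T₂ ∧ F s = 0}

/-- The number of these zeros, counted with multiplicity. -/
noncomputable def Z (F : ℂ → ℂ) (T₁ T₂ : ℝ) : ℕ := ∑ᶠ s ∈ zeros F T₁ T₂, analyticOrderNatAt F s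

/-- The simple zeros of `F` on the critical line with `T₁ < Im s ≤ T₂` which are not zeros
of `G`. -/
def own (F G : ℂ → ℂ) (T₁ T₂ : ℝ) : Set ℂ :=
  {s : ℂ | s ∈ zeros F T₁ T₂ ∧ s.re = 1 / 2 ∧ analyticOrderNatAt F s = 1 ∧ G s ≠ 0}

open Classical in
/-- `1` if the set `S` is not empty, `0` if it is empty. -/
noncomputable def ind (S : Set ℂ) : ℝ := if S.Nonempty then 1 else 0

/-- The sum of `g q χ` over the primitive Dirichlet characters `χ` of all the conductors `q` with
`X < q ≤ Y`, `q` prime to `M`, with the weights `q^(-2)`. -/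
noncomputable def fam (M X Y : ℕ) (g : (q : ℕ) → DirichletCharacter ℂ q → ℝ) : ℝ :=
  ∑ q ∈ (Finset.Ioc X Y).filter (fun q => Nat.Coprime q M), (1 / (q : ℝ) ^ 2) *
    ∑ᶠ χ : {χ : DirichletCharacter ℂ q // χ.IsPrimitive}, g q χ

/-- **Main theorem.** -/
theorem result (m₁ m₂ : ℕ) [NeZero m₁] [NeZero m₂] (ψ₁ : DirichletCharacter ℂ m₁)
    (ψ₂ : DirichletCharacter ℂ m₂) (h₁ : ψ₁.IsPrimitive) (h₂ : ψ₂.IsPrimitive)
    (hne : ¬ (m₁ = m₂ ∧ HEq ψ₁ ψ₂)) :
    -- the characters and the L-functions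
    (∀ (q : ℕ) (χ : DirichletCharacter ℂ q), 2 ≤ q → Nat.Coprime q (m₁ * m₂) → χ.IsPrimitive →
      ((twist χ ψ₁).IsPrimitive ∧ Differentiable ℂ (L (twist χ ψ₁)) ∧
        ∀ s : ℂ, 1 < s.re → L (twist χ ψ₁) s = LSeries (fun n => χ n * ψ₁ n) s) ∧
      ((twist χ ψ₂).IsPrimitive ∧ Differentiable ℂ (L (twist χ ψ₂)) ∧
        ∀ s : ℂ, 1 < s.re → L (twist χ ψ₂) s = LSeries (fun n => χ n * ψ₂ n) s)) ∧
    ∃ κ : ℝ,
      -- the total weight of the family
      (∀ X Y : ℕ, 1 ≤ X → κ * X ≤ Y → 1 ≤ fam (m₁ * m₂) X Y (fun _ _ => 1)) ∧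
      -- all heights, all windows
      (∀ ε : ℝ, 0 < ε → ∃ B η X₀ : ℝ, 0 < η ∧ ∀ X Y : ℕ, X₀ ≤ (X : ℝ) → κ * X ≤ Y →
        ∀ t H : ℝ, |t| ≤ (X : ℝ) ^ η → B / Real.log X ≤ H → H ≤ (X : ℝ) ^ η →
          (∀ (q : ℕ) (χ : DirichletCharacter ℂ q), X < q → Nat.Coprime q (m₁ * m₂) →
            χ.IsPrimitive → (zeros (L (twist χ ψ₁)) t (t + H)).Finite ∧
              (zeros (L (twist χ ψ₂)) t (t + H)).Finite) ∧
          -- the number of the zeros of each of the two functions
          (fam (m₁ * m₂) X Y (fun q χ => |(Z (L (twist χ ψ₁)) t (t + H) : ℝ) -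
            H / (2 * Real.pi) * Real.log q|) ≤
              ε * fam (m₁ * m₂) X Y (fun q _ => H / (2 * Real.pi) * Real.log q) ∧
          fam (m₁ * m₂) X Y (fun q χ => |(Z (L (twist χ ψ₂)) t (t + H) : ℝ) -
            H / (2 * Real.pi) * Real.log q|) ≤
              ε * fam (m₁ * m₂) X Y (fun q _ => H / (2 * Real.pi) * Real.log q)) ∧
          -- the two functions together
          0.3579 * fam (m₁ * m₂) X Y (fun q χ => (Z (L (twist χ ψ₁)) t (t + H) : ℝ) +
            (Z (L (twist χ ψ₂)) t (t + H) : ℝ)) ≤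
              fam (m₁ * m₂) X Y (fun q χ =>
                ((own (L (twist χ ψ₁)) (L (twist χ ψ₂)) t (t + H)).ncard : ℝ) +
                ((own (L (twist χ ψ₂)) (L (twist χ ψ₁)) t (t + H)).ncard : ℝ)) ∧
          0.67895 * fam (m₁ * m₂) X Y (fun q χ => (Z (L (twist χ ψ₁)) t (t + H) : ℝ) +
            (Z (L (twist χ ψ₂)) t (t + H) : ℝ)) ≤
              fam (m₁ * m₂) X Y (fun q χ => ((zeros (L (twist χ ψ₁)) t (t + H) ∪
                zeros (L (twist χ ψ₂)) t (t + H)).ncard : ℝ)) ∧
          -- each of the two functions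
          (0.302 * fam (m₁ * m₂) X Y (fun q χ => (Z (L (twist χ ψ₁)) t (t + H) : ℝ)) ≤
            fam (m₁ * m₂) X Y (fun q χ =>
              ((own (L (twist χ ψ₁)) (L (twist χ ψ₂)) t (t + H)).ncard : ℝ)) ∧
          0.302 * fam (m₁ * m₂) X Y (fun q χ => (Z (L (twist χ ψ₂)) t (t + H) : ℝ)) ≤
            fam (m₁ * m₂) X Y (fun q χ =>
              ((own (L (twist χ ψ₂)) (L (twist χ ψ₁)) t (t + H)).ncard : ℝ))) ∧
          0.3578 * fam (m₁ * m₂) X Y (fun q χ => (Z (L (twist χ ψ₁)) t (t + H) : ℝ)) ≤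
            fam (m₁ * m₂) X Y (fun q χ => ((zeros (L (twist χ ψ₁)) t (t + H) \
              zeros (L (twist χ ψ₂)) t (t + H)).ncard : ℝ)) ∧
          0.3578 * fam (m₁ * m₂) X Y (fun q χ => (Z (L (twist χ ψ₂)) t (t + H) : ℝ)) ≤
            fam (m₁ * m₂) X Y (fun q χ => ((zeros (L (twist χ ψ₂)) t (t + H) \
              zeros (L (twist χ ψ₁)) t (t + H)).ncard : ℝ))) ∧
      -- the members with such a zero near a given height
      (∃ B η X₀ : ℝ, 0 < η ∧ ∀ X Y : ℕ, X₀ ≤ (X : ℝ) → κ * X ≤ Y →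
        ∀ t : ℝ, |t| ≤ (X : ℝ) ^ η →
          0.3579 * fam (m₁ * m₂) X Y (fun _ _ => 1) ≤
            fam (m₁ * m₂) X Y (fun q χ =>
              ind (own (L (twist χ ψ₁)) (L (twist χ ψ₂)) t (t + B / Real.log X) ∪
                own (L (twist χ ψ₂)) (L (twist χ ψ₁)) t (t + B / Real.log X))) ∧
          0.302 * fam (m₁ * m₂) X Y (fun _ _ => 1) ≤
            fam (m₁ * m₂) X Y (fun q χ =>
              ind (own (L (twist χ ψ₁)) (L (twist χ ψ₂)) t (t + B / Real.log X))) ∧
          0.302 * fam (m₁ * m₂) X Y (fun _ _ => 1) ≤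
            fam (m₁ * m₂) X Y (fun q χ =>
              ind (own (L (twist χ ψ₂)) (L (twist χ ψ₁)) t (t + B / Real.log X)))) := by
  classical
  have hcop : ∀ q : ℕ, Nat.Coprime q (m₁ * m₂) → Nat.Coprime q m₁ ∧ Nat.Coprime q m₂ :=
    fun q hq => ⟨Nat.Coprime.coprime_dvd_right (dvd_mul_right _ _) hq,
      Nat.Coprime.coprime_dvd_right (dvd_mul_left _ _) hq⟩
  have hL : ∀ {m : ℕ} [NeZero m] (ψ : DirichletCharacter ℂ m), ψ.IsPrimitive →
      ∀ (q : ℕ) (χ : DirichletCharacter ℂ q), 2 ≤ q → Nat.Coprime q m → χ.IsPrimitive →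
      (twist χ ψ).IsPrimitive ∧ Differentiable ℂ (L (twist χ ψ)) ∧
        (∀ s : ℂ, 1 < s.re → L (twist χ ψ) s = LSeries (fun n => χ n * ψ n) s) ∧
        ∃ s : ℂ, L (twist χ ψ) s ≠ 0 := by
    intro m _ ψ hψ q χ h2 hq hχ
    have : NeZero q := ⟨by omega⟩
    have : NeZero (q * m) := ⟨mul_ne_zero (NeZero.ne q) (NeZero.ne m)⟩
    have n1 : twist χ ψ ≠ 1 := Pool.Agent.T9h27.P.tm_ne_one h2 hχ hψ hq
    have e1 : L (twist χ ψ) = DirichletCharacter.LFunction (twist χ ψ) :=
      Pool.Agent.T9h27.P.Lf_eq _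
    refine ⟨Pool.Agent.T9h27.P.tm_prim hχ hψ hq, ?_, fun s hs => ?_, 2, ?_⟩
    · rw [e1]
      exact DirichletCharacter.differentiable_LFunction n1
    · rw [e1, DirichletCharacter.LFunction_eq_LSeries _ hs]
      congr 1
      funext n
      exact Pool.Agent.T9h27.P.tm_apply χ ψ n
    · rw [e1]
      exact DirichletCharacter.LFunction_ne_zero_of_one_le_re _ (Or.inl n1) (by norm_num)
  obtain ⟨κ, hκ, hmass, Hm, Hp⟩ := Pool.Agent.T9h27.R.top h₁ h₂
    (Pool.Agent.T9h27.P.tm_ne h₁ h₂ hne)
  have hcong : ∀ (X Y : ℕ) (f g : (q : ℕ) → DirichletCharacter ℂ q → ℝ), 1 ≤ X →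
      (∀ (q : ℕ) (χ : DirichletCharacter ℂ q), X < q → 2 ≤ q → Nat.Coprime q (m₁ * m₂) →
        χ.IsPrimitive → f q χ = g q χ) →
      H385.primFamM (m₁ * m₂) X Y f = fam (m₁ * m₂) X Y g := by
    intro X Y f g hX h
    unfold fam H385.primFamM
    refine Finset.sum_congr rfl fun q hq => ?_
    rw [Finset.mem_filter, Finset.mem_Ioc] at hq
    congr 1
    exact finsum_congr fun χ => h q χ hq.1.1 (by omega) hq.2 χ.2
  have hcnt : ∀ (q : ℕ) (χ : DirichletCharacter ℂ q), 2 ≤ q → Nat.Coprime q (m₁ * m₂) →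
      χ.IsPrimitive → ∀ T₁ T₂ : ℝ,
      (H370.zset (Pool.Agent.T9h27.P.FF ψ₁ ψ₂ q χ) T₁ T₂).Finite →
      H370.zset (Pool.Agent.T9h27.P.FF ψ₁ ψ₂ q χ) T₁ T₂ =
        zeros (L (twist χ ψ₁)) T₁ T₂ ∪ zeros (L (twist χ ψ₂)) T₁ T₂ ∧
      H370.NN (Pool.Agent.T9h27.P.FF ψ₁ ψ₂ q χ) T₁ T₂ =
        Z (L (twist χ ψ₁)) T₁ T₂ + Z (L (twist χ ψ₂)) T₁ T₂ ∧
      H370.Ns (Pool.Agent.T9h27.P.FF ψ₁ ψ₂ q χ) T₁ T₂ =
        (own (L (twist χ ψ₁)) (L (twist χ ψ₂)) T₁ T₂).ncard +
          (own (L (twist χ ψ₂)) (L (twist χ ψ₁)) T₁ T₂).ncard := by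
    intro q χ h2 hq hχ T₁ T₂ hfin
    obtain ⟨c1, c2⟩ := hcop q hq
    obtain ⟨_, d1, _, n1⟩ := hL ψ₁ h₁ q χ h2 c1 hχ
    obtain ⟨_, d2, _, n2⟩ := hL ψ₂ h₂ q χ h2 c2 hχ
    exact Pool.Agent.T9h27.P.counts d1 d2 n1 n2 hfin
  refine ⟨?_, κ, hmass, ?_, ?_⟩
  · intro q χ h2 hq hχ
    obtain ⟨c1, c2⟩ := hcop q hq
    obtain ⟨p1, d1, e1, _⟩ := hL ψ₁ h₁ q χ h2 c1 hχ
    obtain ⟨p2, d2, e2, _⟩ := hL ψ₂ h₂ q χ h2 c2 hχ
    exact ⟨⟨p1, d1, e1⟩, p2, d2, e2⟩
  · intro ε hε
    obtain ⟨B, η, X₀, hB, hη, hX₀, Hm⟩ := Hm ε hε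
    refine ⟨B, η, max X₀ (Real.exp 1), hη, fun X Y hX hXY t H ht hH1 hH2 => ?_⟩
    have hX1 : X₀ ≤ (X : ℝ) := (le_max_left _ _).trans hX
    have hX2 : Real.exp 1 ≤ (X : ℝ) := (le_max_right _ _).trans hX
    have hlog : 0 < Real.log (X : ℝ) := by
      have h1 := Real.exp_pos 1
      have : 1 ≤ Real.log (X : ℝ) := by
        rw [Real.le_log_iff_exp_le (by linarith)]
        exact hX2
      linarith
    have hXn : 1 ≤ X := by
      have : (1 : ℝ) ≤ X := hX₀.trans hX1
      exact_mod_cast this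
    obtain ⟨k1, k2, k3, k4, k5⟩ := Hm X Y hX1 hXY t H ht ((div_le_iff₀ hlog).mp hH1) hH2
    have hc : ∀ (q : ℕ) (χ : DirichletCharacter ℂ q), X < q → 2 ≤ q →
        Nat.Coprime q (m₁ * m₂) → χ.IsPrimitive → _ :=
      fun q χ hXq h2 hq hχ => hcnt q χ h2 hq hχ t (t + H) (k1 q χ hXq hq hχ)
    refine ⟨fun q χ hXq hq hχ => ?_, k2, ?_, ?_, k5⟩
    · have h2 : 2 ≤ q := by omega
      have hf := k1 q χ hXq hq hχ
      rw [(hc q χ hXq h2 hq hχ).1] at hf
      exact ⟨hf.subset Set.subset_union_left, hf.subset Set.subset_union_right⟩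
    · refine le_trans (le_of_eq ?_) (k3.trans (le_of_eq ?_))
      · congr 1
        refine (hcong X Y _ _ hXn fun q χ hXq h2 hq hχ => ?_).symm
        rw [(hc q χ hXq h2 hq hχ).2.1, Nat.cast_add]
      · refine hcong X Y _ _ hXn fun q χ hXq h2 hq hχ => ?_
        rw [(hc q χ hXq h2 hq hχ).2.2, Nat.cast_add]
    · refine le_trans (le_of_eq ?_) (k4.trans (le_of_eq ?_))
      · congr 1
        refine (hcong X Y _ _ hXn fun q χ hXq h2 hq hχ => ?_).symm
        rw [(hc q χ hXq h2 hq hχ).2.1, Nat.cast_add]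
      · refine hcong X Y _ _ hXn fun q χ hXq h2 hq hχ => ?_
        unfold H370.Nd
        rw [(hc q χ hXq h2 hq hχ).1]
  · obtain ⟨B, η, X₀, hB, hη, hX₀, Hp⟩ := Hp
    refine ⟨B, η, max X₀ (Real.exp 1), hη, fun X Y hX hXY t ht => ?_⟩
    have hX1 : X₀ ≤ (X : ℝ) := (le_max_left _ _).trans hX
    have hX2 : Real.exp 1 ≤ (X : ℝ) := (le_max_right _ _).trans hX
    have hlog : 0 < Real.log (X : ℝ) := by
      have h1 := Real.exp_pos 1
      have : 1 ≤ Real.log (X : ℝ) := by
        rw [Real.le_log_iff_exp_le (by linarith)]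
        exact hX2
      linarith
    have hXn : 1 ≤ X := by
      have : (1 : ℝ) ≤ X := hX₀.trans hX1
      exact_mod_cast this
    obtain ⟨k1, k2⟩ := Hp X Y hX1 hXY t (B / Real.log X) ht (le_of_eq (by field_simp))
    refine ⟨k1.trans (le_of_eq (hcong X Y _ _ hXn fun q χ hXq h2 hq hχ => ?_)), k2⟩
    obtain ⟨c1, c2⟩ := hcop q hq
    obtain ⟨_, d1, _, n1⟩ := hL ψ₁ h₁ q χ h2 c1 hχ
    obtain ⟨_, d2, _, n2⟩ := hL ψ₂ h₂ q χ h2 c2 hχ
    unfold ind
    congr 1
    exact propext (Pool.Agent.T9h27.P.ex_own d1 d2 n1 n2)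

end Pool.Agent.Results.MP_3b6604_nt.TwistPairsOwnZeros
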